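import Pool.Agent.W983.PL.Stm

/-!
# MP_fe6d1a_gt: PC-BC, numerical facts on the constants
-/
set_option autoImplicit false
open Set Topology
open Pool.Agent.W983.PL

namespace Pool.Agent.W571.PC

theorem bb_lt_cc (k : ℕ) : bb k < cc k := by
  unfold cc; have : (0:ℝ) < 1 / 2 ^ (k + 6) := by positivity
  linarith

theorem cc_lt_bb (k : ℕ) : cc k < bb (k + 1) := by
  unfold cc bb
  have h : (0:ℝ) < (2:ℝ) ^ k := by positivity
  have e1 : (1:ℝ) / 2 ^ (k + 4) = 1 / 2 ^ k * (1 / 16) := by rw [pow_add]; field_simp; norm_num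
  have e2 : (1:ℝ) / 2 ^ (k + 6) = 1 / 2 ^ k * (1 / 64) := by rw [pow_add]; field_simp; norm_num
  have e3 : (1:ℝ) / 2 ^ (k + 1 + 4) = 1 / 2 ^ k * (1 / 32) := by
    rw [show k + 1 + 4 = k + 5 from rfl, pow_add]; field_simp; norm_num
  have h' : (0:ℝ) < 1 / 2 ^ k := by positivity
  rw [e1, e2, e3]
  linarith

theorem t_BC : S_BC := by
  have hle : ∀ j k, j ≤ k → bb j ≤ bb k := by
    intro j k hjk
    induction k, hjk using Nat.le_induction with
    | base => exact le_rfl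
    | succ n _ ih => linarith [bb_lt_cc n, cc_lt_bb n]
  have h8 : ∀ k, bb k < 1 / 8 := by
    intro k; unfold bb
    have : (0:ℝ) < 1 / 2 ^ (k + 4) := by positivity
    linarith
  refine ⟨fun k => ⟨?_, bb_lt_cc k, cc_lt_bb k, h8 k, ?_, ?_⟩, ?_, ?_⟩
  · have h0 : bb 0 = 1 / 16 := by unfold bb; norm_num
    rw [← h0]; exact hle 0 k (Nat.zero_le k)
  · linarith [cc_lt_bb k, h8 (k + 1)]
  · have e : cc k - bb k = 1 / 2 ^ (k + 6) := by unfold cc; ring
    rw [e]
    have e2 : (1:ℝ) / 64 = 1 / 2 ^ 6 := by norm_num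
    rw [e2]
    apply one_div_le_one_div_of_le (by positivity)
    exact pow_le_pow_right₀ (by norm_num) (by omega)
  · intro j k hjk
    exact lt_of_lt_of_le (cc_lt_bb j) (hle (j + 1) k hjk)
  · intro ε hε
    obtain ⟨N, hN⟩ := exists_pow_lt_of_lt_one hε (by norm_num : (1:ℝ) / 2 < 1)
    refine ⟨N, fun k hk => ?_⟩
    unfold bb
    have h1 : (1:ℝ) / 2 ^ (k + 4) ≤ (1 / 2) ^ N := by
      rw [one_div_pow]
      apply one_div_le_one_div_of_le (by positivity)
      exact pow_le_pow_right₀ (by norm_num) (by omega)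
    linarith

end Pool.Agent.W571.PC
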