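import Pool.Agent.W983.PL.Stm

/-!
# MP_fe6d1a_gt: PC-HOM, a periodic order isomorphism of the line descends to the circle
-/
set_option autoImplicit false
open Set Topology
open Pool.Agent.W983.PL

namespace Pool.Agent.W571.PC

theorem per_nat (F : ℝ ≃o ℝ) (h : ∀ t, F (t + 1) = F t + 1) (n : ℕ) (t : ℝ) :
    F (t + n) = F t + n := by
  induction n with
  | zero => simp
  | succ n ih => push_cast; rw [← add_assoc, h, ih]; ring

theorem per_int (F : ℝ ≃o ℝ) (h : ∀ t, F (t + 1) = F t + 1) (n : ℤ) (t : ℝ) :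
    F (t + n) = F t + n := by
  obtain ⟨m, rfl | rfl⟩ := n.eq_nat_or_neg
  · exact_mod_cast per_nat F h m t
  · have := per_nat F h m (t + ((-(m:ℤ) : ℤ) : ℝ))
    push_cast at this ⊢
    rw [neg_add_cancel_right] at this
    linarith

/-- the map of the circle induced by `F` -/
noncomputable def dsc (F : ℝ ≃o ℝ) (z : Circle) : Circle := E (F (co z))

theorem dsc_E (F : ℝ ≃o ℝ) (h : ∀ t, F (t + 1) = F t + 1) (t : ℝ) : dsc F (E t) = E (F t) := by
  unfold dsc
  rw [co_E]
  have e : Int.fract t = t + ((-⌊t⌋ : ℤ) : ℝ) := by rw [Int.fract]; push_cast; ring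
  rw [e, per_int F h, E_add_int]

theorem E_quot : IsQuotientMap E := by
  have hE : Function.Surjective E := fun z => ⟨co z, E_co z⟩
  have h : Function.Surjective ((Icc (0:ℝ) 1).restrict E) := by
    intro z
    exact ⟨⟨co z, co_nonneg z, (co_lt_one z).le⟩, E_co z⟩
  have hc : Continuous ((Icc (0:ℝ) 1).restrict E) := continuous_E.comp continuous_subtype_val
  have hq : IsQuotientMap ((Icc (0:ℝ) 1).restrict E) :=
    (hc.isClosedMap).isQuotientMap hc h
  have e : (Icc (0:ℝ) 1).restrict E = E ∘ (Subtype.val) := rfl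
  rw [e] at hq
  exact IsQuotientMap.of_comp continuous_subtype_val continuous_E hq

theorem cont_dsc (F : ℝ ≃o ℝ) (h : ∀ t, F (t + 1) = F t + 1) : Continuous (dsc F) := by
  rw [E_quot.continuous_iff]
  have e : dsc F ∘ E = E ∘ F := funext fun t => dsc_E F h t
  rw [e]
  exact continuous_E.comp F.continuous

theorem symm_per (F : ℝ ≃o ℝ) (h : ∀ t, F (t + 1) = F t + 1) (t : ℝ) :
    F.symm (t + 1) = F.symm t + 1 := by
  rw [OrderIso.symm_apply_eq, h, OrderIso.apply_symm_apply]

theorem dsc_dsc (F : ℝ ≃o ℝ) (h : ∀ t, F (t + 1) = F t + 1) (z : Circle) :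
    dsc F.symm (dsc F z) = z := by
  obtain ⟨t, -, -, rfl⟩ := E_surj z
  rw [dsc_E F h, dsc_E F.symm (symm_per F h), OrderIso.symm_apply_apply]

theorem t_HOM : S_HOM := by
  intro F h
  have h' := symm_per F h
  refine ⟨{ toFun := dsc F, invFun := dsc F.symm, left_inv := dsc_dsc F h,
            right_inv := fun z => by have := dsc_dsc F.symm h' z; simpa using this,
            continuous_toFun := cont_dsc F h, continuous_invFun := cont_dsc F.symm h' },
    fun t => dsc_E F h t, ?_⟩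
  intro a b c habc
  show Ccw (dsc F a) (dsc F b) (dsc F c)
  obtain ⟨p, -, -, rfl⟩ := E_surj a
  obtain ⟨q, hq1, hq2, rfl⟩ := E_surj' p b
  obtain ⟨r, hr1, hr2, rfl⟩ := E_surj' p c
  rw [dsc_E F h, dsc_E F h, dsc_E F h]
  -- p < q
  have hpq : p < q := by
    rcases hq1.eq_or_lt with h1 | h1
    · exfalso
      subst h1
      unfold Ccw at habc
      rw [area_self'] at habc
      exact lt_irrefl _ habc
    · exact h1
  have hqr : q < r := by
    by_contra hc
    push Not at hc
    exact (not_ccw_iff hpq hq2 (E r)).2 ⟨r, ⟨hr1, hc⟩, rfl⟩ habc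
  apply ccw_E (F.lt_iff_lt.2 hpq) (F.lt_iff_lt.2 hqr)
  rw [← h]
  exact F.lt_iff_lt.2 hr2

end Pool.Agent.W571.PC
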