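import Pool.Agent.W770.PC.SphStms

/-!
# MP_6cbfb8_an: PC-hess, the Hessian matrix of the graph of the sphere
-/
set_option autoImplicit false
open MeasureTheory Set Filter Topology

namespace Pool.Agent.W770.PC

theorem hess_thm (h1 : S_hh) (h2 : S_der) : S_hess := by
  obtain ⟨hsm, hDU, hUo, hU, hD⟩ := h1
  obtain ⟨s1, s2, D1, D2, -, -, -, -, -⟩ := h2 hh hsm
  obtain ⟨-, -, D11, D12, -⟩ := h2 (d1 hh) s1
  obtain ⟨-, -, D21, D22, -⟩ := h2 (d2 hh) s2
  intro y hy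
  have hyU := hDU hy
  -- neighbourhoods along the coordinate lines
  have n1 : ∀ᶠ u in 𝓝 y.1, (u, y.2) ∈ U0 := by
    have hc : ContinuousAt (fun u : ℝ => (u, y.2)) y.1 := by fun_prop
    exact hc (hUo.mem_nhds hyU)
  have n2 : ∀ᶠ v in 𝓝 y.2, (y.1, v) ∈ U0 := by
    have hc : ContinuousAt (fun v : ℝ => (y.1, v)) y.2 := by fun_prop
    exact hc (hUo.mem_nhds hyU)
  -- the three second order identities
  have e11 : d1 (d1 hh) y * hh y + d1 hh y * d1 hh y = -1 := by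
    have hd : HasDerivAt (fun u => d1 hh (u, y.2) * hh (u, y.2))
        (d1 (d1 hh) y * hh y + d1 hh y * d1 hh y) y.1 := (D11 y).mul (D1 y)
    have he : (fun u => d1 hh (u, y.2) * hh (u, y.2)) =ᶠ[𝓝 y.1] fun u => -u := by
      filter_upwards [n1] with u hu
      exact (hU _ hu).2.2.1
    have hd' : HasDerivAt (fun u : ℝ => -u) (d1 (d1 hh) y * hh y + d1 hh y * d1 hh y) y.1 :=
      hd.congr_of_eventuallyEq he.symm
    exact hd'.unique (hasDerivAt_neg y.1)
  have e22 : d2 (d2 hh) y * hh y + d2 hh y * d2 hh y = -1 := by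
    have hd : HasDerivAt (fun v => d2 hh (y.1, v) * hh (y.1, v))
        (d2 (d2 hh) y * hh y + d2 hh y * d2 hh y) y.2 := (D22 y).mul (D2 y)
    have he : (fun v => d2 hh (y.1, v) * hh (y.1, v)) =ᶠ[𝓝 y.2] fun v => -v := by
      filter_upwards [n2] with v hv
      exact (hU _ hv).2.2.2
    have hd' : HasDerivAt (fun v : ℝ => -v) (d2 (d2 hh) y * hh y + d2 hh y * d2 hh y) y.2 :=
      hd.congr_of_eventuallyEq he.symm
    exact hd'.unique (hasDerivAt_neg y.2)
  have e12 : d1 (d2 hh) y * hh y + d2 hh y * d1 hh y = 0 := by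
    have hd : HasDerivAt (fun u => d2 hh (u, y.2) * hh (u, y.2))
        (d1 (d2 hh) y * hh y + d2 hh y * d1 hh y) y.1 := (D21 y).mul (D1 y)
    have he : (fun u => d2 hh (u, y.2) * hh (u, y.2)) =ᶠ[𝓝 y.1] fun _ => -y.2 := by
      filter_upwards [n1] with u hu
      exact (hU _ hu).2.2.2
    have hd' : HasDerivAt (fun _ : ℝ => -y.2) (d1 (d2 hh) y * hh y + d2 hh y * d1 hh y) y.1 :=
      hd.congr_of_eventuallyEq he.symm
    exact hd'.unique (hasDerivAt_const y.1 (-y.2))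
  obtain ⟨hp, hsq, g1, g2⟩ := hU y hyU
  obtain ⟨hl, hu⟩ := hD y hy
  have hy1 : |y.1| ≤ 3 / 8 ∧ |y.2| ≤ 3 / 8 := by
    obtain ⟨⟨a1, a2⟩, ⟨b1, b2⟩⟩ := hy
    simp only [Prod.fst_zero, Prod.snd_zero, zero_sub, zero_add] at a1 a2 b1 b2
    exact ⟨abs_le.2 ⟨a1, a2⟩, abs_le.2 ⟨b1, b2⟩⟩
  have q1 : y.1 ^ 2 ≤ 9 / 64 := by
    have := sq_le_sq' (abs_le.1 hy1.1).1 (abs_le.1 hy1.1).2
    norm_num at this; exact this
  have q2 : y.2 ^ 2 ≤ 9 / 64 := by
    have := sq_le_sq' (abs_le.1 hy1.2).1 (abs_le.1 hy1.2).2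
    norm_num at this; exact this
  unfold det2
  generalize d1 (d1 hh) y = A at *
  generalize d2 (d2 hh) y = B at *
  generalize d1 (d2 hh) y = C at *
  generalize d1 hh y = P at *
  generalize d2 hh y = Q at *
  generalize hh y = H at *
  -- multiply by powers of H
  have f1 : -A * H ^ 3 = H ^ 2 + y.1 ^ 2 := by
    have : (A * H + P * P) * H ^ 2 = -H ^ 2 := by rw [e11]; ring
    have h3 : (P * H) * (P * H) = y.1 ^ 2 := by rw [g1]; ring
    linear_combination (-1 : ℝ) * this + h3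
  have f2 : -B * H ^ 3 = H ^ 2 + y.2 ^ 2 := by
    have : (B * H + Q * Q) * H ^ 2 = -H ^ 2 := by rw [e22]; ring
    have h3 : (Q * H) * (Q * H) = y.2 ^ 2 := by rw [g2]; ring
    linear_combination (-1 : ℝ) * this + h3
  have f3 : C * H ^ 3 = -(y.1 * y.2) := by
    have : (C * H + Q * P) * H ^ 2 = 0 := by rw [e12]; ring
    have h3 : (Q * H) * (P * H) = y.1 * y.2 := by rw [g1, g2]; ring
    linear_combination this - h3
  have H2 : 0 < H ^ 2 := by positivity
  have H3 : 0 < H ^ 3 := by positivity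
  have H3l : 64 / 125 ≤ H ^ 3 := by
    calc (64 / 125 : ℝ) = (4 / 5) ^ 3 := by norm_num
      _ ≤ H ^ 3 := by gcongr
  have H32 : H ^ 3 ≤ H ^ 2 := by
    have : H ^ 3 = H ^ 2 * H := by ring
    rw [this]; nlinarith
  have y1n : 0 ≤ y.1 ^ 2 := sq_nonneg _
  have y2n : 0 ≤ y.2 ^ 2 := sq_nonneg _
  have k1 : 0 < -A := by
    by_contra hc
    push Not at hc
    have : -A * H ^ 3 ≤ 0 := mul_nonpos_of_nonpos_of_nonneg hc H3.le
    linarith
  have k2 : 0 < -B := by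
    by_contra hc
    push Not at hc
    have : -B * H ^ 3 ≤ 0 := mul_nonpos_of_nonpos_of_nonneg hc H3.le
    linarith
  refine ⟨k1, k2, ?_, ?_, ?_, ?_, ?_⟩
  · by_contra hc
    push Not at hc
    have : 2 * H ^ 3 < -A * H ^ 3 := mul_lt_mul_of_pos_right hc H3
    linarith
  · by_contra hc
    push Not at hc
    have : 2 * H ^ 3 < -B * H ^ 3 := mul_lt_mul_of_pos_right hc H3
    linarith
  · by_contra hc
    push Not at hc
    have h5 : 1 * H ^ 3 < |C| * H ^ 3 := mul_lt_mul_of_pos_right hc H3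
    have h6 : |C| * H ^ 3 = |y.1| * |y.2| := by
      rw [← abs_of_pos H3, ← abs_mul, f3, abs_neg, abs_mul]
    have h7 : |y.1| * |y.2| ≤ 3 / 8 * (3 / 8) :=
      mul_le_mul hy1.1 hy1.2 (abs_nonneg _) (by norm_num)
    rw [h6] at h5
    linarith
  · -- the determinant
    have h6 : (A * B - C ^ 2) * (H ^ 3 * H ^ 3) = H ^ 2 := by
      have e : (A * B - C ^ 2) * (H ^ 3 * H ^ 3) =
        (-A * H ^ 3) * (-B * H ^ 3) - (C * H ^ 3) ^ 2 := by ring
      rw [e, f1, f2, f3]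
      have h8 : y.2 ^ 2 = 1 - y.1 ^ 2 - H ^ 2 := by linarith
      linear_combination (H ^ 2) * h8
    by_contra hc
    push Not at hc
    have h9 : (A * B - C ^ 2) * (H ^ 3 * H ^ 3) < 1 * (H ^ 3 * H ^ 3) :=
      mul_lt_mul_of_pos_right hc (by positivity)
    rw [h6] at h9
    have h10 : H ^ 3 ≤ 1 := pow_le_one₀ hp.le hu
    have h11 : H ^ 3 * H ^ 3 ≤ H ^ 2 * 1 := mul_le_mul H32 h10 H3.le H2.le
    linarith
  · by_contra hc
    push Not at hc
    have : -A * H ^ 3 < 1 * H ^ 3 := mul_lt_mul_of_pos_right hc H3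
    linarith

end Pool.Agent.W770.PC
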